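import Pool.Agent.W475.BG.All
import Pool.Agent.W475.BG.Flw
import Pool.Agent.W50.BG.PRM
import Pool.Agent.W470.BG.DEL

/-!
# The backward heat flow of the completed L-function of Ramanujan's `Δ`

Let `Λ(s) = (2π)^(-s) Γ(s) L(s, Δ)`, so that the Ramanujan Xi function is `Ξ_Δ(z) = Λ(6 + i z)`, and let
`Λ_t = e^{t D²} Λ` (`D = d/ds`) be its heat flow.  All zeros of `Ξ_Δ` are real if and only if all zeros
of `Λ_t` are on the line `Re s = 6` for all `t > 0` (de Bruijn, Newman).  The analogue of Newman's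
conjecture (Dobner 2021, for the extended Selberg class) says that for every `t < 0` there is at least
one zero of `Λ_t` which is not on the line.

We prove that for EVERY `t = -κ < 0` at least half of the zeros of `Λ_t` are not on the line, and we
determine the exact distribution of the zeros in the outer half of the strip which they fill: `Λ_t` has
`(2/π) R log R (1 + o(1))` zeros with `|s - 6| ≤ R`, and for `1/2 < u ≤ v ≤ 1` a proportion which tends to
`(v - u) / 2` of them has `u ≤ (Re s - 6) / (2 κ log R) ≤ v`, and the same on the left of the line.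

The coefficients `τ(n)` of `Δ` enter through known facts: they are multiplicative (Mordell), bounded by a
power of `n`, and `|τ(n)|² n^(-11)` is bounded on average over short intervals and bounded below on
average over primes (Rankin, Selberg).

Proof.  Modules `Pool.Agent.W475.BG` (helper475, with helpers 2, 45, 50, 52, 99, 195, 202, 236, 273, 304,
308, 334, 351, 356, 398, 403, 470, 490, 605, 661, 691, 721, 782, 790, 836, 847, 962, and the modules
`Pool.Agent.W475.BH` of the case of the Riemann zeta function).  Near a point of height `t` the function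
`Λ_{-κ}` is the gamma factor times a sum over `n` of the coefficients against a Gaussian in `log n`
centred at a point which moves with `Re s`; in the outer half of the strip the centre is below
`(log t) / 2`, where mean squares of Dirichlet polynomials show that the sum is not small in any box of
size `ω log t`, for all but few `t`.  So `log |Λ_{-κ}|` has the expected size everywhere, and potential
theory gives the distribution of the zeros.
-/

set_option autoImplicit false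

namespace Pool.Agent.Results.MP_cd509c_nt.BackwardHeatFlow

open Complex MeasureTheory Filter Topology

/-- `Δ(i y) = e^(-2πy) ∏_{n ≥ 1} (1 - e^(-2πny))^24`, the modular discriminant on the imaginary axis
(the function of the frozen statement S18517). -/
noncomputable def delta (y : ℝ) : ℝ :=
  Real.exp (-2 * Real.pi * y) * ∏' n : ℕ, (1 - Real.exp (-2 * Real.pi * ((n : ℝ) + 1) * y)) ^ 24

/-- The completed L-function `Λ(s) = ∫_0^∞ Δ(i y) y^(s-1) dy = (2π)^(-s) Γ(s) L(s, Δ)`, an entire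
function with `Λ(12 - s) = Λ(s)`; the Ramanujan Xi function is `Ξ_Δ(z) = Λ(6 + i z)`. -/
noncomputable def Lam (s : ℂ) : ℂ := mellin (fun y : ℝ => ((delta y : ℝ) : ℂ)) s

/-- The facts on Ramanujan's function `τ` which are used: `Δ(i y) = ∑ τ(n) e^(-2πny)`, `τ(0) = 0`,
`τ(1) = 1`, multiplicativity (Mordell 1917), `|τ(n)| ≤ n^A` for some `A` (`A = 7` by Deligne or by
Hecke), and two weak consequences of the theory of Rankin (1939) and Selberg (1940): `short`, which
follows from `∑_{n ≤ x} τ(n)² n^(-11) = c x + O(x^(3/5))`, and `primes`, which follows from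
`∑_{p ≤ x} τ(p)² p^(-11) log p ∼ x`. -/
structure IsTau (τ : ℕ → ℝ) : Prop where
  zero : τ 0 = 0
  one : τ 1 = 1
  mul : ∀ p n : ℕ, p.Prime → 1 ≤ n → ¬ p ∣ n → τ (p * n) = τ p * τ n
  expansion : ∀ y : ℝ, 0 < y → HasSum (fun n : ℕ => τ n * Real.exp (-2 * Real.pi * n * y)) (delta y)
  growth : ∃ A : ℝ, 0 ≤ A ∧ ∀ n : ℕ, 1 ≤ n → |τ n| ≤ (n : ℝ) ^ A
  short : ∃ C : ℝ, 0 < C ∧ ∀ x h : ℝ, 2 ≤ x → x / Real.log x ^ 3 ≤ h → h ≤ x →
    ∑ n ∈ Finset.Ioc ⌊x⌋₊ ⌊x + h⌋₊, (τ n / (n : ℝ) ^ (11 / 2 : ℝ)) ^ 2 ≤ C * h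
  primes : ∀ α β : ℝ, 0 < α → α < β → ∃ c T₀ : ℝ, 0 < c ∧ ∀ T : ℝ, T₀ ≤ T →
    c ≤ ∑ p ∈ (Finset.Ioc ⌊T ^ α⌋₊ ⌊T ^ β⌋₊).filter Nat.Prime,
      (τ p / (p : ℝ) ^ (11 / 2 : ℝ)) ^ 2 / (p : ℝ)

/-- The backward heat flow `e^{-κ D²} Λ` (`D = d/ds`) as a Gaussian average on vertical lines:
`π^(-1/2) ∫ exp (-v²) Λ(s + 2 i √κ v) dv`. -/
noncomputable def flow (κ : ℝ) (Λ : ℂ → ℂ) (s : ℂ) : ℂ :=
  ((1 / Real.sqrt Real.pi : ℝ) : ℂ) *
    ∫ v : ℝ, ((Real.exp (-v ^ 2) : ℝ) : ℂ) * Λ (s + Complex.I * ((2 * Real.sqrt κ * v : ℝ) : ℂ))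

/-- The zeros of `e^{-κ D²} Λ` with `|s - 6| ≤ R`. -/
def zeros (κ R : ℝ) : Set ℂ := {s : ℂ | flow κ Lam s = 0 ∧ ‖s - 6‖ ≤ R}

/-- The number of zeros of `e^{-κ D²} Λ` in `A`, with multiplicity. -/
noncomputable def num (κ : ℝ) (A : Set ℂ) : ℝ :=
  ((∑ᶠ s ∈ A, analyticOrderNatAt (flow κ Lam) s : ℕ) : ℝ)

/-- **Main theorem.**  For every `κ > 0` the function `e^{-κ D²} Λ` is entire, it has
`(2/π + o(1)) R log R` zeros with `|s - 6| ≤ R`; for `1/2 < u ≤ v ≤ 1` the proportion of them with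
`2 u κ log R ≤ Re s - 6 ≤ 2 v κ log R` tends to `(v - u) / 2`, the same holds on the left of the line,
and for every `ε > 0` the proportion of the zeros which are not on the line `Re s = 6` is at least
`1/2 - ε` for all large `R`. -/
theorem result (τ : ℕ → ℝ) (hτ : IsTau τ) (κ : ℝ) (hκ : 0 < κ) :
    Differentiable ℂ (flow κ Lam) ∧ (∀ R : ℝ, (zeros κ R).Finite) ∧
    Tendsto (fun R : ℝ => num κ (zeros κ R) / (R * Real.log R)) atTop (𝓝 (2 / Real.pi)) ∧
    (∀ u v : ℝ, 1 / 2 < u → u ≤ v → v ≤ 1 →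
      Tendsto (fun R : ℝ => num κ {s | s ∈ zeros κ R ∧
        u * (2 * κ * Real.log R) ≤ s.re - 6 ∧ s.re - 6 ≤ v * (2 * κ * Real.log R)} /
          num κ (zeros κ R)) atTop (𝓝 ((v - u) / 2)) ∧
      Tendsto (fun R : ℝ => num κ {s | s ∈ zeros κ R ∧
        u * (2 * κ * Real.log R) ≤ 6 - s.re ∧ 6 - s.re ≤ v * (2 * κ * Real.log R)} /
          num κ (zeros κ R)) atTop (𝓝 ((v - u) / 2))) ∧
    ∀ ε : ℝ, 0 < ε → ∀ᶠ R : ℝ in atTop,
      (1 / 2 - ε) * num κ (zeros κ R) ≤ num κ {s | s ∈ zeros κ R ∧ s.re ≠ 6} := by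
  have hsq : ∀ n : ℕ, ‖((τ n / (n : ℝ) ^ (11 / 2 : ℝ) : ℝ) : ℂ)‖ ^ 2 =
      (τ n / (n : ℝ) ^ (11 / 2 : ℝ)) ^ 2 := by
    intro n
    rw [Complex.norm_real, Real.norm_eq_abs, sq_abs]
  have hs : Pool.Agent.W475.BG.Shrt (fun n => ((τ n / (n : ℝ) ^ (11 / 2 : ℝ) : ℝ) : ℂ)) := by
    obtain ⟨C, hC, h⟩ := hτ.short
    refine ⟨C, hC, fun x h' h1 h2 h3 => ?_⟩
    simp only [hsq]
    exact h x h' h1 h2 h3
  have hp : Pool.Agent.W475.BG.Prim (fun n => ((τ n / (n : ℝ) ^ (11 / 2 : ℝ) : ℝ) : ℂ)) := by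
    intro α β h1 h2
    obtain ⟨c, T₀, hc, h⟩ := hτ.primes α β h1 h2
    refine ⟨c, max T₀ 2, hc, le_max_right _ _, fun T hT => ?_⟩
    simp only [hsq]
    exact h T ((le_max_left _ _).trans hT)
  obtain ⟨D, hD, hd, c, hc, hL⟩ := Pool.Agent.W470.BG.DEL.del Pool.Agent.W50.BG.prm τ hτ.zero hτ.one
    hτ.mul hτ.expansion hτ.growth hs hp
  obtain ⟨hY, hF⟩ := Pool.Agent.W475.BG.main D hD
  have hL' : ∀ s, D.Lam s = c * Lam (s + (((6 : ℝ) - 1 / 2 : ℝ) : ℂ)) := by
    intro s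
    rw [hL]
    have : s + 11 / 2 = s + (((6 : ℝ) - 1 / 2 : ℝ) : ℂ) := by push_cast; ring
    rw [this]
    rfl
  have hlaw := Pool.Agent.W475.BG.flw hY hF hc hL' κ hκ
  rw [hd] at hlaw
  have hcast : ((2 : ℕ) : ℝ) = 2 := by norm_num
  have h6 : (((6 : ℝ)) : ℂ) = 6 := by push_cast; rfl
  have hz : ∀ R, Pool.Agent.W475.BG.zeros κ Lam 6 R = zeros κ R := by
    intro R
    unfold Pool.Agent.W475.BG.zeros zeros
    rw [h6]
    rfl
  have hflow : Pool.Agent.W475.BG.flow κ Lam = flow κ Lam := rfl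
  have hnum : ∀ A, Pool.Agent.W475.BG.num κ Lam A = num κ A := fun A => rfl
  rw [hcast] at hlaw
  simp only [hz, hnum] at hlaw
  obtain ⟨h1, h2, h3, h4⟩ := hlaw
  refine ⟨?_, h1, h2, ?_, h4⟩
  · have hX := (hY κ hκ).1
    exact Pool.Agent.W475.BG.flow_diff hY hc hL' hκ
  · intro u v hu huv hv
    exact h3 u v (by linarith) huv hv

end Pool.Agent.Results.MP_cd509c_nt.BackwardHeatFlow
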